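import Pool.Agent.X82.CWGirth

/-!
# The girth conjecture and clique-width

`Builds w S l A` (`Pool/Agent/X82/CW1.lean`): some clique-width expression with `w` labels has as value
the graph with vertex set `S`, labels `l` and adjacency relation `A`; `CliqueWidthLe G w`: the
clique-width of `G` is at most `w`; `gam n k`: the largest number of edges of a graph on `n` vertices of
girth greater than `k`.

1. For `2 ≤ w ≤ n` the largest number of edges of a graph on `n` vertices of girth greater than `2 m` and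
   clique-width at most `w` is between `⌊n / w⌋ γ(w, 2 m)` and `312 ⌊n / w⌋ γ(w, 2 m)`.
2. Hence every lower order of magnitude `n ^ (1 + α)` of `γ(n, 2 m)` (`α = 1 / m` is the girth
   conjecture for `m`) is equivalent to the corresponding order for the graphs of clique-width at
   most `n ^ γ`, for every `0 < γ ≤ 1`.
3. Moore bound for the clique-width: a graph of girth greater than `2 m` and average degree `d` has
   clique-width at least `(d / 1248) ^ m`.
4. Every graph of girth greater than `2 m` with `n` vertices and at least `ε n ^ (1 + 1 / m)` edges has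
   clique-width at least `(ε / 624) ^ m n`.
-/

set_option autoImplicit false

open SimpleGraph Filter Pool.Agent.X82.CW

namespace Pool.Agent.Results.MP_97687e_co.CliqueWidth

theorem result (m : ℕ) (hm : 2 ≤ m) :
    -- (1) localisation at the scale of the clique-width
    (∀ n w : ℕ, 2 ≤ w → w ≤ n →
      (∃ G : SimpleGraph (Fin n), ((2 * m : ℕ) : ℕ∞) < G.egirth ∧ CliqueWidthLe G w ∧
        (n / w) * gam w (2 * m) ≤ Nat.card G.edgeSet) ∧
      (∀ G : SimpleGraph (Fin n), ((2 * m : ℕ) : ℕ∞) < G.egirth → CliqueWidthLe G w →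
        Nat.card G.edgeSet ≤ 312 * ((n / w) * gam w (2 * m)))) ∧
    -- (2) orders of magnitude
    (∀ α γ : ℝ, 0 ≤ α → 0 < γ → γ ≤ 1 →
      ((∃ c : ℝ, 0 < c ∧ ∀ᶠ n : ℕ in atTop, c * (n : ℝ) ^ (1 + α) ≤ gam n (2 * m)) ↔
        (∃ c : ℝ, 0 < c ∧ ∀ᶠ n : ℕ in atTop, ∃ G : SimpleGraph (Fin n),
          ((2 * m : ℕ) : ℕ∞) < G.egirth ∧ CliqueWidthLe G ⌈(n : ℝ) ^ γ⌉₊ ∧
          c * (n : ℝ) ^ (1 + γ * α) ≤ Nat.card G.edgeSet))) ∧
    -- (3) the Moore bound for the clique-width
    (∀ (n w : ℕ) (G : SimpleGraph (Fin n)) (d : ℝ), 1 ≤ n → 0 ≤ d →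
      ((2 * m : ℕ) : ℕ∞) < G.egirth → d * n ≤ 2 * Nat.card G.edgeSet → CliqueWidthLe G w →
      (d / 1248) ^ m ≤ w) ∧
    -- (4) graphs with the conjectured number of edges have linear clique-width
    (∀ (n w : ℕ) (G : SimpleGraph (Fin n)) (ε : ℝ), 0 < ε → ((2 * m : ℕ) : ℕ∞) < G.egirth →
      ε * (n : ℝ) ^ (1 + 1 / (m : ℝ)) ≤ Nat.card G.edgeSet → CliqueWidthLe G w →
      (ε / 624) ^ m * n ≤ w) := by
  have hg := good_girth (k := 2 * m) (by omega)
  have hm0 : (0 : ℝ) < m := by exact_mod_cast (by omega : 0 < m)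
  have hC : ∀ n : ℕ, 1 ≤ n → (gam n (2 * m) : ℝ) ≤ 2 * (n : ℝ) ^ (1 + 1 / (m : ℝ)) :=
    fun n hn => gam_le (by omega) hn
  refine ⟨?_, ?_, ?_, ?_⟩
  · intro n w hw hwn
    refine ⟨hg.lower (by omega) (by omega), ?_⟩
    intro G hG hcw
    have := hg.upper (by norm_num) hw hwn G hG hcw
    simpa using this
  · intro α γ hα h0 h1
    have := hg.lower_iff (by norm_num) (a := 1 + α) (γ := γ) (by linarith) h0 h1
    simpa using this
  · intro n w G d hn hd hG hE hcw
    have hn0 : (0 : ℝ) < n := by exact_mod_cast hn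
    rcases Nat.eq_zero_or_pos w with rfl | hw
    · have h1 := cw_one (by omega) hcw
      rw [h1] at hE
      simp only [Nat.cast_zero, mul_zero] at hE
      have hd0 : d = 0 := by
        rcases hd.lt_or_eq with h | h
        · have : 0 < d * n := by positivity
          linarith
        · exact h.symm
      subst hd0
      rw [zero_div, zero_pow (by omega), Nat.cast_zero]
    have h1 := hg.upper_pow (by norm_num) (a := 1 + 1 / (m : ℝ)) (C := 2)
      (by have : 0 ≤ 1 / (m : ℝ) := by positivity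
          linarith) hC G hG hcw hw
    have e1 : (1 + 1 / (m : ℝ) - 1) = 1 / (m : ℝ) := by ring
    rw [e1] at h1
    have hw0 : (0 : ℝ) < w := by exact_mod_cast hw
    have h2 : n * (d / 1248) ≤ n * (w : ℝ) ^ (1 / (m : ℝ)) := by
      push_cast at h1
      nlinarith
    have h3 := le_of_mul_le_mul_left h2 hn0
    have h4 := pow_le_pow_left₀ (by positivity) h3 m
    rw [← Real.rpow_natCast ((w : ℝ) ^ (1 / (m : ℝ))) m, ← Real.rpow_mul hw0.le,
      one_div_mul_cancel hm0.ne', Real.rpow_one] at h4
    exact h4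
  · intro n w G ε hε hG hE hcw
    have h1 := hg.linear (by norm_num) (a := 1 + 1 / (m : ℝ)) (C := 2)
      (by have : 0 < 1 / (m : ℝ) := by positivity
          linarith) (by norm_num) hC hε G hG hE hcw
    have e1 : (1 / (1 + 1 / (m : ℝ) - 1)) = m := by
      field_simp
      ring
    rw [e1, Real.rpow_natCast] at h1
    have e2 : ε / (78 * ((2 : ℕ) : ℝ) ^ 2 * 2) = ε / 624 := by norm_num
    rw [e2] at h1
    exact h1

end Pool.Agent.Results.MP_97687e_co.CliqueWidth
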