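import Mathlib
import Pool.Agent.X73.RK.Girth

set_option autoImplicit false

/-!
# Eigenvalue multiplicities in graphs of girth greater than `2 m`

Let `G` be a graph with `n` vertices, `e` edges and girth greater than `2 m`, `m ≥ 2`, and let
`A` be its adjacency matrix.  For every real `λ` the matrix `A - λ I` has rank at least
`(e / 4 n) ^ m`.  So a graph with `c n^(1+1/m)` edges as in the girth conjecture has
`rank (A - λ I) ≥ (c/4)^m n` for every real `λ`: no eigenvalue (zero included) has multiplicity
greater than `(1 - (c/4)^m) n`.  The proof compares the trace of `(A_S - λ I)(A_S - λ I)ᵀ`, for a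
suitable vertex set `S` that induces a graph of large minimum degree, with the sum of the squares
of its entries; the second moment of the degrees inside `S` is bounded through the number of paths
of length `m`.
-/

namespace Pool.Agent.Results.MP_97687e_co.EigenvalueMultiplicities

open Pool.Agent.X73.RK

/-- rank and multiplicity -/
theorem rank_add_mult {V : Type} [Fintype V] [DecidableEq V] (A : Matrix V V ℝ) (lam : ℝ) :
    (A - lam • (1 : Matrix V V ℝ)).rank +
      Module.finrank ℝ (Module.End.eigenspace (Matrix.toLin' A) lam) = Fintype.card V := by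
  have h1 := LinearMap.finrank_range_add_finrank_ker
    (Matrix.toLin' (A - lam • (1 : Matrix V V ℝ)))
  rw [Module.finrank_fintype_fun_eq_card] at h1
  have h2 : Module.End.eigenspace (Matrix.toLin' A) lam =
      LinearMap.ker (Matrix.toLin' (A - lam • (1 : Matrix V V ℝ))) := by
    ext x
    rw [Module.End.mem_eigenspace_iff, LinearMap.mem_ker, Matrix.toLin'_apply, Matrix.toLin'_apply,
      Matrix.sub_mulVec, Matrix.smul_mulVec, Matrix.one_mulVec, sub_eq_zero]
  rw [h2]
  exact h1

/-- Let `m ≥ 2` and let `G` be a finite graph of girth greater than `2 m` with `n` vertices, `e`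
edges and adjacency matrix `A`. (1) For every real `λ`, the real rank of `A - λ I` is at least
`(e / (4 n)) ^ m`. (2) Hence every real number `λ` has multiplicity at most `n - (e / (4 n)) ^ m`
as an eigenvalue of `A`. (3) If `e ≥ c n^(1+1/m)` with `c ≥ 0`, then for every real `λ` the
rank of `A - λ I` is at least `(c/4)^m n` and the multiplicity of `λ` is at most
`(1 - (c/4)^m) n`. -/
theorem result (V : Type) [Fintype V] [DecidableEq V] (G : SimpleGraph V) [DecidableRel G.Adj]
    (m : ℕ) (hm : 2 ≤ m) (hG : ((2 * m : ℕ) : ℕ∞) < G.egirth) :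
    (∀ lam : ℝ, ((G.edgeFinset.card : ℝ) / (4 * Fintype.card V)) ^ m ≤
        ((G.adjMatrix ℝ - lam • (1 : Matrix V V ℝ)).rank : ℝ)) ∧
    (∀ lam : ℝ, (Module.finrank ℝ
        (Module.End.eigenspace (Matrix.toLin' (G.adjMatrix ℝ)) lam) : ℝ) ≤
          Fintype.card V - ((G.edgeFinset.card : ℝ) / (4 * Fintype.card V)) ^ m) ∧
    (∀ c : ℝ, 0 ≤ c → c * (Fintype.card V : ℝ) ^ (1 + 1 / (m : ℝ)) ≤ G.edgeFinset.card →
      ∀ lam : ℝ, (c / 4) ^ m * Fintype.card V ≤
          ((G.adjMatrix ℝ - lam • (1 : Matrix V V ℝ)).rank : ℝ) ∧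
        (Module.finrank ℝ (Module.End.eigenspace (Matrix.toLin' (G.adjMatrix ℝ)) lam) : ℝ) ≤
          (1 - (c / 4) ^ m) * Fintype.card V) := by
  have key : ∀ lam : ℝ, ((G.adjMatrix ℝ - lam • (1 : Matrix V V ℝ)).rank : ℝ) +
      (Module.finrank ℝ (Module.End.eigenspace (Matrix.toLin' (G.adjMatrix ℝ)) lam) : ℝ) =
        Fintype.card V := by
    intro lam
    exact_mod_cast rank_add_mult (G.adjMatrix ℝ) lam
  refine ⟨fun lam => rank_girth G hm hG lam, fun lam => ?_, ?_⟩
  · have h1 := rank_girth G hm hG lam
    have h2 := key lam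
    linarith
  · intro c hc he lam
    have h3 : (c / 4) ^ m * Fintype.card V ≤
        ((G.adjMatrix ℝ - lam • (1 : Matrix V V ℝ)).rank : ℝ) := by
      rcases Nat.eq_zero_or_pos (Fintype.card V) with hn | hn
      · rw [hn]
        simp
      · have hn' : (0 : ℝ) < Fintype.card V := by exact_mod_cast hn
        refine le_trans ?_ (rank_girth G hm hG lam)
        have hm0 : (m : ℝ) ≠ 0 := by
          have : m ≠ 0 := by omega
          exact_mod_cast this
        have e1 : (Fintype.card V : ℝ) = ((Fintype.card V : ℝ) ^ (1 / (m : ℝ))) ^ m := by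
          rw [← Real.rpow_natCast, ← Real.rpow_mul hn'.le, one_div_mul_cancel hm0, Real.rpow_one]
        have e2 : (c / 4) ^ m * Fintype.card V =
            (c / 4 * (Fintype.card V : ℝ) ^ (1 / (m : ℝ))) ^ m := by
          rw [mul_pow, ← e1]
        rw [e2]
        apply pow_le_pow_left₀ (by positivity)
        rw [le_div_iff₀ (by positivity)]
        refine le_trans (le_of_eq ?_) he
        rw [Real.rpow_add hn', Real.rpow_one]
        ring
    refine ⟨h3, ?_⟩
    have h2 := key lam
    linarith

end Pool.Agent.Results.MP_97687e_co.EigenvalueMultiplicities
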