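import Pool.Agent.X246.MRK.Equiv

/-!
# The girth conjecture and the rank of matrices with the pattern of a graph

A matrix `W` has the off-diagonal pattern of the graph `G` if for `i ≠ j` the entry `W i j` is not zero
exactly when `i` and `j` are adjacent (no symmetry; the diagonal and the values are arbitrary).

1. In a graph of girth at least five every matching saturates at most `3 rank W` vertices, and some
   vertex cover has at most `3 rank W` vertices (`2 rank W` if the diagonal of `W` is zero).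
2. A graph of girth greater than `2 m` with `n` vertices has at most `6 n (6 rank W) ^ (1 / m)` edges.
3. The largest number of edges of a graph on `n` vertices of girth greater than `4 k` with such a matrix
   of rank at most `r` is between `n + γ(⌊r/2⌋, 2 k) - ⌊r/2⌋` and `n + 3 γ(3 r, 2 k)`.
4. The girth conjecture for `k` holds if and only if for all large `n` there are graphs on `n`
   vertices of girth greater than `4 k` with at least `(1 + δ) n` edges and such a matrix of rank
   `O(n ^ (k / (k + 1)))`.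
-/

set_option autoImplicit false

open SimpleGraph Filter Pool.Agent.X82.CW Pool.Agent.X246.MRK

namespace Pool.Agent.Results.MP_97687e_co.MatchingRank

theorem result :
    -- (1) matchings, vertex covers and the rank
    (∀ (V : Type) [Fintype V] [DecidableEq V] (G : SimpleGraph V) (W : Matrix V V ℝ),
      (4 : ℕ∞) < G.egirth → (∀ i j, i ≠ j → (W i j ≠ 0 ↔ G.Adj i j)) →
      (∀ M : G.Subgraph, M.IsMatching → M.verts.ncard ≤ 3 * W.rank) ∧
      (∃ X : Finset V, X.card ≤ 3 * W.rank ∧ ∀ x y, G.Adj x y → x ∈ X ∨ y ∈ X) ∧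
      ((∀ i, W i i = 0) → (∀ M : G.Subgraph, M.IsMatching → M.verts.ncard ≤ 2 * W.rank) ∧
        ∃ X : Finset V, X.card ≤ 2 * W.rank ∧ ∀ x y, G.Adj x y → x ∈ X ∨ y ∈ X)) ∧
    (∀ (V : Type) [Fintype V] [DecidableEq V] (G : SimpleGraph V) [DecidableRel G.Adj]
      (X : Finset V), (∀ x y, G.Adj x y → x ∈ X ∨ y ∈ X) →
      (G.adjMatrix ℝ).rank ≤ 2 * X.card) ∧
    -- (2) the Moore bound for the rank
    (∀ (m n : ℕ) (G : SimpleGraph (Fin n)) (W : Matrix (Fin n) (Fin n) ℝ), 2 ≤ m →
      ((2 * m : ℕ) : ℕ∞) < G.egirth → (∀ i j, i ≠ j → (W i j ≠ 0 ↔ G.Adj i j)) →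
      (Nat.card G.edgeSet : ℝ) ≤ 6 * (n * ((6 * W.rank : ℕ) : ℝ) ^ (1 / (m : ℝ))) ∧
      (∀ ε : ℝ, 0 ≤ ε → ε * (n : ℝ) ^ (1 + 1 / (m : ℝ)) ≤ Nat.card G.edgeSet →
        (ε / 6) ^ m * n ≤ 6 * W.rank)) ∧
    -- (3) the excess over the number of vertices for small rank and girth greater than `4 k`
    (∀ k n r : ℕ, 2 ≤ k → ∀ G : SimpleGraph (Fin n), RankGirth (4 * k) r G →
      Nat.card G.edgeSet ≤ n + 3 * gam (3 * r) (2 * k)) ∧
    (∀ k n r : ℕ, 2 ≤ r → r / 2 + gam (r / 2) (2 * k) ≤ n →
      ∃ G : SimpleGraph (Fin n), RankGirth (4 * k) r G ∧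
        n + gam (r / 2) (2 * k) ≤ Nat.card G.edgeSet + r / 2) ∧
    -- (4) the girth conjecture for `k` is a statement on sparse graphs of girth greater than `4 k`
    (∀ (k : ℕ) (δ : ℝ), 2 ≤ k → 0 < δ → δ < 1 →
      ((∃ c : ℝ, 0 < c ∧ ∀ᶠ n : ℕ in atTop, c * (n : ℝ) ^ (1 + 1 / (k : ℝ)) ≤ gam n (2 * k)) ↔
        (∃ C : ℝ, ∀ᶠ n : ℕ in atTop, ∃ (G : SimpleGraph (Fin n)) (r : ℕ),
          RankGirth (4 * k) r G ∧ (r : ℝ) ≤ C * (n : ℝ) ^ ((k : ℝ) / (k + 1)) ∧
          (1 + δ) * n ≤ Nat.card G.edgeSet))) := by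
  refine ⟨?_, ?_, ?_, ?_, ?_, ?_⟩
  · intro V _ _ G W hG hW
    refine ⟨matching_bound G W hW 2 (share_girth hG W hW),
      cover_bound G W hW 2 (share_girth hG W hW), fun h0 => ?_⟩
    have h1 := share_zero G W hW h0 1 (common_one hG)
    exact ⟨matching_bound G W hW 1 h1, cover_bound G W hW 1 h1⟩
  · intro V _ _ G _ X hX
    exact rank_le_cover G X hX
  · intro m n G W hm hG hW
    have h4 : (4 : ℕ∞) < G.egirth :=
      lt_of_le_of_lt (by exact_mod_cast (by omega : 4 ≤ 2 * m)) hG
    have hm0 : (0 : ℝ) < m := by exact_mod_cast (by omega : 0 < m)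
    have key : (Nat.card G.edgeSet : ℝ) ≤ 6 * (n * ((6 * W.rank : ℕ) : ℝ) ^ (1 / (m : ℝ))) := by
      obtain ⟨X, hX1, hX2⟩ := cover_bound G W hW 2 (share_girth h4 W hW)
      rcases Nat.eq_zero_or_pos W.rank with h0 | h0
      · rw [h0] at hX1
        have hX0 : X = ∅ := by
          rw [← Finset.card_eq_zero]
          omega
        have : IsEmpty G.edgeSet := by
          constructor
          rintro ⟨e, he⟩
          induction e with
          | _ x y =>
            have := hX2 x y he
            rw [hX0] at this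
            simp at this
        rw [Nat.card_of_isEmpty, Nat.cast_zero]
        positivity
      · have h1 := edges_cover hm G hG X (3 * W.rank) (by omega) (by omega) hX2
        have e1 : 2 * (3 * W.rank) = 6 * W.rank := by ring
        rw [e1] at h1
        exact h1
    refine ⟨key, fun ε hε h => ?_⟩
    rcases Nat.eq_zero_or_pos n with rfl | hn
    · simp
    have hn0 : (0 : ℝ) < n := by exact_mod_cast hn
    have h2 := h.trans key
    rw [Real.rpow_add hn0, Real.rpow_one] at h2
    have h3 : n * (ε / 6 * (n : ℝ) ^ (1 / (m : ℝ))) ≤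
        n * ((6 * W.rank : ℕ) : ℝ) ^ (1 / (m : ℝ)) := by linarith
    have h4 := le_of_mul_le_mul_left h3 hn0
    have h5 := pow_le_pow_left₀ (by positivity) h4 m
    rw [mul_pow, ← Real.rpow_natCast (((6 * W.rank : ℕ) : ℝ) ^ (1 / (m : ℝ))) m,
      ← Real.rpow_mul (by positivity), one_div_mul_cancel hm0.ne', Real.rpow_one,
      ← Real.rpow_natCast ((n : ℝ) ^ (1 / (m : ℝ))) m, ← Real.rpow_mul hn0.le,
      one_div_mul_cancel hm0.ne', Real.rpow_one] at h5
    push_cast at h5
    exact h5
  · intro k n r hk G hG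
    exact rank_excess hk G hG
  · intro k n r hr hn
    obtain ⟨H, hH, he⟩ := exOf_attained (fun (n : ℕ) (G : SimpleGraph (Fin n)) =>
      ((2 * k : ℕ) : ℕ∞) < G.egirth) (n := r / 2) ⟨⊥, by
        rw [egirth_bot]
        exact WithTop.coe_lt_top _⟩
    have he' : Nat.card H.edgeSet = gam (r / 2) (2 * k) := he
    obtain ⟨G, hG1, hG2⟩ := rank_lower (r := r) (by omega) (by omega) H hH (n := n) (by omega)
    exact ⟨G, hG1, by omega⟩
  · intro k δ hk h0 h1
    exact equiv_girth hk h0 h1

end Pool.Agent.Results.MP_97687e_co.MatchingRank
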