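import Pool.Agent.X49.Alg.Girth

set_option autoImplicit false

/-!
# The algebraic degree of the neighbourhoods in graphs of large girth

The vertices are the points of `c` copies of `F ^ m`, `F` the field with `q` elements (`c = 1`, or
`c = 2` for bipartite graphs). The neighbourhoods are arbitrary sets such that, for every vertex `x`
and every copy, adjacency of `x` and `y` is a function of the values at `y` of `s` polynomials of
degree at most `D` in the `m` coordinates of `y`; the polynomials depend on `x` in an arbitrary way.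
Every graph is of this form with `s = 1`, `D = (q - 1) m`, and with `s = m`, `D = 1`.

1. If there are no cycles of length at most `2 k`, then `(q ^ (m - s D) - 2) ^ k` is at most the
   number of vertices of positive degree.
2. So a graph with an edge and without cycles of length at most `2 k` has
   `s D ≥ (1 - 1 / k) m - O(1)`, where `m = log_q n + O(1)`, whatever its number of edges.
3. Graphs without isolated vertices in which this minimum is attained up to a constant have
   `≥ c' n ^ (1 + 1 / k)` edges, the order asked for in the girth conjecture.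
4. For `k = 2` and `k = 3` the minimum is attained exactly, over every prime field and in all
   dimensions `m` divisible by `k`: `D = 1`, `s = (1 - 1 / k) m`, and all degrees are `q ^ (m / k)`.
-/

namespace Pool.Agent.Results.MP_97687e_co.NeighbourhoodDegree

open MvPolynomial

/-- Membership in `A` is a function of the values of `s` polynomials of degree at most `D`. -/
def LowSet {F : Type} [Field F] {m : ℕ} (s D : ℕ) (A : Set (Fin m → F)) : Prop :=
  ∃ (f : Fin s → MvPolynomial (Fin m) F) (S : Set (Fin s → F)),
    (∀ j, (f j).totalDegree ≤ D) ∧ ∀ y, y ∈ A ↔ (fun j => eval y (f j)) ∈ S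

/-- The part in every copy of `F ^ m` of the neighbourhood of every vertex `x` is, up to `x`, given
by `s` polynomials of degree at most `D`. -/
def LowNeighbourhoods {F : Type} [Field F] {c m : ℕ} (s D : ℕ)
    (G : SimpleGraph (Fin c × (Fin m → F))) : Prop :=
  ∀ (x : Fin c × (Fin m → F)) (i : Fin c), ∃ A : Set (Fin m → F), LowSet s D A ∧
    ∀ y, (i, y) ≠ x → (G.Adj x (i, y) ↔ y ∈ A)

/-- All cycles of `G` are longer than `l`. -/
def CyclesLonger {V : Type} (l : ℕ) (G : SimpleGraph V) : Prop :=
  ∀ (v : V) (w : G.Walk v v), w.IsCycle → l < w.length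

theorem result :
    -- (1) the number of vertices of positive degree
    (∀ (F : Type) [Field F] [Fintype F] (c m s D k : ℕ) (G : SimpleGraph (Fin c × (Fin m → F))),
      LowNeighbourhoods s D G → CyclesLonger (2 * k) G → (∃ x y, G.Adj x y) →
      (Fintype.card F ^ (m - s * D) - 2) ^ k ≤ Nat.card {x // ∃ y, G.Adj x y}) ∧
    -- (2) `s D ≥ (1 - 1 / k) m - 1 - b / k` if the number of copies is at most `q ^ b`
    (∀ (F : Type) [Field F] [Fintype F] (c m s D k b : ℕ)
      (G : SimpleGraph (Fin c × (Fin m → F))), LowNeighbourhoods s D G →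
      CyclesLonger (2 * k) G → (∃ x y, G.Adj x y) → c ≤ Fintype.card F ^ b →
      (k - 1) * m ≤ k * (s * D + 1) + b) ∧
    -- (3) if `s D ≤ (1 - 1 / k) m + C`, the graph has `c' n ^ (1 + 1 / k)` edges
    (∀ (F : Type) [Field F] [Fintype F] (c m s D k C : ℕ)
      (G : SimpleGraph (Fin c × (Fin m → F))), LowNeighbourhoods s D G → 1 ≤ c → 1 ≤ k →
      (∀ x, ∃ y, G.Adj x y) → k * (s * D) ≤ (k - 1) * m + k * C →
      (1 / (4 * (Fintype.card F : ℝ) ^ C * c)) *
        (Nat.card (Fin c × (Fin m → F)) : ℝ) ^ (1 + 1 / (k : ℝ)) ≤ Nat.card G.edgeSet) ∧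
    -- (4) for `k = 2` and `k = 3`, `D = 1` and `s = (1 - 1 / k) m` is possible
    (∀ (p : ℕ) [Fact p.Prime] (e k : ℕ), 1 ≤ e → k = 2 ∨ k = 3 →
      ∃ G : SimpleGraph (Fin 2 × (Fin (k * e) → ZMod p)),
        LowNeighbourhoods ((k - 1) * e) 1 G ∧ CyclesLonger (2 * k) G ∧
        ∀ x, Nat.card {y // G.Adj x y} = p ^ e) := by
  refine ⟨?_, ?_, ?_, ?_⟩
  · intro F _ _ c m s D k G hG hg hne
    exact Pool.Agent.X49.Alg.moore hG hg hne
  · intro F _ _ c m s D k b G hG hg hne hb
    exact Pool.Agent.X49.Alg.exponent hG hg hne hb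
  · intro F _ _ c m s D k C G hG hc hk hne hs
    exact Pool.Agent.X49.Alg.extremal hG hc hk hne hs
  · intro p _ e k he hk
    rcases hk with rfl | rfl
    · obtain ⟨G, h1, h2, h3⟩ := Pool.Agent.X49.Alg.example2 p e he
      refine ⟨G, ?_, h2, h3⟩
      rw [show (2 - 1) * e = e by ring]
      exact h1
    · obtain ⟨G, h1, h2, h3⟩ := Pool.Agent.X49.Alg.example3 p e he
      exact ⟨G, h1, h2, h3⟩

end Pool.Agent.Results.MP_97687e_co.NeighbourhoodDegree
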